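import Pool.Agent.Helper91.Del.TopoB

/-! The topological theorem. -/

namespace Pool.Agent.Helper91.Del

open Module Pool.Agent.Helper65.Delone Pool.Agent.Helper31.Del
open scoped RealInnerProductSpace

variable {E : Type} [NormedAddCommGroup E] [InnerProductSpace ℝ E]

/-- the parallelogram estimate -/
theorem para {q x x' z : E} {η K : ℝ} (hη : 0 < η) (hη4 : η ≤ 1 / 4) (hK : 8 * √η ≤ K)
    (hx : ‖q - x‖ ≤ 1 + η) (hx' : ‖q - x'‖ ≤ 1 + η) (hz : ‖q - z‖ ≤ 1 + η)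
    (h1 : 2 - η < ‖x - z‖) (h2 : 2 - η < ‖x' - z‖) : ‖x - x'‖ ≤ K := by
  have key : ∀ y : E, ‖q - y‖ ≤ 1 + η → 2 - η < ‖y - z‖ →
      ‖(q - y) + (q - z)‖ * ‖(q - y) + (q - z)‖ ≤ 15 * η := by
    intro y hy hyz
    have hp := parallelogram_law_with_norm ℝ (q - y) (q - z)
    have e : ‖(q - y) - (q - z)‖ = ‖y - z‖ := by
      rw [← norm_neg]
      congr 1
      abel
    rw [e] at hp
    have a1 : ‖q - y‖ * ‖q - y‖ ≤ (1 + η) * (1 + η) :=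
      mul_self_le_mul_self (norm_nonneg _) hy
    have a2 : ‖q - z‖ * ‖q - z‖ ≤ (1 + η) * (1 + η) :=
      mul_self_le_mul_self (norm_nonneg _) hz
    have a3 : (2 - η) * (2 - η) ≤ ‖y - z‖ * ‖y - z‖ :=
      mul_self_le_mul_self (by linarith) hyz.le
    nlinarith
  have k1 := key x hx h1
  have k2 := key x' hx' h2
  have hp := parallelogram_law_with_norm ℝ ((q - x) + (q - z)) ((q - x') + (q - z))
  have e : ‖((q - x) + (q - z)) - ((q - x') + (q - z))‖ = ‖x - x'‖ := by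
    rw [← norm_neg]
    congr 1
    abel
  rw [e] at hp
  have h3 : ‖x - x'‖ * ‖x - x'‖ ≤ 60 * η := by
    nlinarith [mul_self_nonneg ‖((q - x) + (q - z)) + ((q - x') + (q - z))‖]
  have h4 : √η * √η = η := Real.mul_self_sqrt hη.le
  refine le_trans ?_ hK
  apply abs_le_of_sq_le_sq' _ (by positivity) |>.2
  nlinarith

theorem topo [FiniteDimensional ℝ E] (hS : CoverSurj E) (hU : ThinUnion E) (hC : ThinComb E)
    (hD : ChainDim E) (hM : CutMap E) : Topo E := by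
  intro X m η K C₀ W hm hX hη hη4 hK hdim hloc hf
  classical
  choose! f hf1 hf2 using hf
  have hfin : ∀ q t, {x | x ∈ X ∧ ‖q - x‖ ≤ t}.Finite := fun q t =>
    finiteNear X m hm hX.sep q t
  obtain ⟨x₀, hx₀, -⟩ := hX.dens 0
  have hC0 : 0 ≤ C₀ := (norm_nonneg _).trans (hf1 x₀ hx₀)
  let ρ : E → ℝ := fun q => Metric.infDist q X
  have ρ_lt : ∀ q, ∃ x ∈ X, ‖q - x‖ ≤ ρ q + η := by
    intro q
    obtain ⟨x, hx, hx2⟩ := (Metric.infDist_lt_iff (x := q) (r := Metric.infDist q X + η)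
      ⟨x₀, hx₀⟩).1 (by linarith)
    rw [dist_eq_norm] at hx2
    exact ⟨x, hx, hx2.le⟩
  have ρ_lip : ∀ q q', ρ q' ≤ ρ q + ‖q' - q‖ := by
    intro q q'
    have := Metric.infDist_le_infDist_add_dist (s := X) (x := q') (y := q)
    rw [dist_eq_norm] at this
    exact this
  have ρ_one : ∀ q, ρ q ≤ 1 := by
    intro q
    obtain ⟨x, hx, hx2⟩ := hX.dens q
    have := Metric.infDist_le_dist_of_mem (x := q) hx
    rw [dist_eq_norm] at this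
    exact this.trans hx2
  let Act : E → Finset (AffineSubspace ℝ E) := fun q => (hfin q (ρ q + η)).toFinset.image W
  have mem_Act : ∀ q V, V ∈ Act q ↔ ∃ x ∈ X, ‖q - x‖ ≤ ρ q + η ∧ W x = V := by
    intro q V
    show V ∈ (hfin q (ρ q + η)).toFinset.image W ↔ _
    rw [Finset.mem_image]
    constructor
    · rintro ⟨x, hx, rfl⟩
      obtain ⟨h1, h2⟩ := (Set.Finite.mem_toFinset _).1 hx
      exact ⟨x, h1, h2, rfl⟩
    · rintro ⟨x, h1, h2, rfl⟩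
      exact ⟨x, (Set.Finite.mem_toFinset _).2 ⟨h1, h2⟩, rfl⟩
  have hεex : ∀ q, ∃ ε : ℝ, 0 < ε ∧ ε ≤ 1 / 8 ∧ ∀ q', ‖q' - q‖ < 2 * ε →
      ∀ x ∈ X, ‖q' - x‖ ≤ ρ q' + η → ‖q - x‖ ≤ ρ q + η := by
    intro q
    have hδ : ∃ δ : ℝ, 0 < δ ∧ ∀ x ∈ X, ‖q - x‖ ≤ ρ q + η + 1 → ρ q + η < ‖q - x‖ →
        ρ q + η + δ ≤ ‖q - x‖ := by
      have hfin2 : {x | x ∈ X ∧ ‖q - x‖ ≤ ρ q + η + 1 ∧ ρ q + η < ‖q - x‖}.Finite :=
        (hfin q (ρ q + η + 1)).subset (fun x hx => ⟨hx.1, hx.2.1⟩)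
      rcases Set.eq_empty_or_nonempty
        {x | x ∈ X ∧ ‖q - x‖ ≤ ρ q + η + 1 ∧ ρ q + η < ‖q - x‖} with he | hn
      · refine ⟨1, one_pos, fun x h1 h2 h3 => ?_⟩
        have : x ∈ {x | x ∈ X ∧ ‖q - x‖ ≤ ρ q + η + 1 ∧ ρ q + η < ‖q - x‖} := ⟨h1, h2, h3⟩
        rw [he] at this
        exact absurd this (Set.notMem_empty _)
      · obtain ⟨a, ha, ha2⟩ := Set.exists_min_image _ (fun x => ‖q - x‖) hfin2 hn
        refine ⟨‖q - a‖ - (ρ q + η), by linarith [ha.2.2], fun x h1 h2 h3 => ?_⟩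
        have := ha2 x ⟨h1, h2, h3⟩
        linarith
    obtain ⟨δ, hδ1, hδ2⟩ := hδ
    refine ⟨min (1 / 8) (δ / 8), lt_min (by norm_num) (by linarith), min_le_left _ _, ?_⟩
    intro q' hq' x hx hxq
    by_contra hcon
    rw [not_le] at hcon
    have a1 := min_le_left (1 / 8 : ℝ) (δ / 8)
    have a2 := min_le_right (1 / 8 : ℝ) (δ / 8)
    have a3 : ‖q - x‖ ≤ ‖q' - x‖ + ‖q' - q‖ := by
      have e : q - x = (q' - x) - (q' - q) := by abel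
      rw [e]
      exact norm_sub_le _ _
    have a4 := ρ_lip q q'
    have a5 := hδ2 x hx (by linarith) hcon
    linarith
  choose ε hε1 hε2 hε3 using hεex
  have hXc : X.Countable := by
    have e : X ⊆ ⋃ n : ℕ, {x | x ∈ X ∧ ‖(0 : E) - x‖ ≤ n} := by
      intro x hx
      obtain ⟨n, hn⟩ := exists_nat_ge ‖(0 : E) - x‖
      exact Set.mem_iUnion.2 ⟨n, hx, hn⟩
    exact (Set.countable_iUnion (fun n : ℕ => (hfin 0 (n : ℝ)).countable)).mono e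
  -- facts on active points
  have hA1 : ∀ q x, ‖q - x‖ ≤ ρ q + η → ‖q - x‖ ≤ 1 + η := fun q x h => by
    have := ρ_one q
    linarith
  have uniq : ∀ q x x' z, ‖q - x‖ ≤ ρ q + η → ‖q - x'‖ ≤ ρ q + η → ‖q - z‖ ≤ ρ q + η →
      x ∈ X → x' ∈ X → 2 - η < ‖x - z‖ → 2 - η < ‖x' - z‖ → W x = W x' :=
    fun q x x' z h1 h2 h3 hx hx' h4 h5 => hloc x hx x' hx'
      (para hη hη4 hK (hA1 q x h1) (hA1 q x' h2) (hA1 q z h3) h4 h5)
  have hfq : ∀ q z, z ∈ X → ‖q - z‖ ≤ ρ q + η → ‖f z - q‖ ≤ C₀ + 2 - 3 / 4 := by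
    intro q z hz hzq
    have e : f z - q = (f z - z) - (q - z) := by abel
    rw [e]
    have h1 := norm_sub_le (f z - z) (q - z)
    have h2 := hf1 z hz
    have h3 := hA1 q z hzq
    linarith
  have far : ∀ q, (¬ ∃ w, (∀ V ∈ Act q, w ∈ V) ∧ ‖w - q‖ < C₀ + 2) → ∀ z ∈ X,
      ‖q - z‖ ≤ ρ q + η → ∃ x ∈ X, ‖q - x‖ ≤ ρ q + η ∧ 2 - η < ‖x - z‖ := by
    intro q hb z hz hzq
    by_contra hcon
    apply hb
    refine ⟨f z, fun V hV => ?_, by linarith [hfq q z hz hzq]⟩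
    obtain ⟨x, hx, hxq, rfl⟩ := (mem_Act q V).1 hV
    refine hf2 z hz x hx ?_
    by_contra h
    exact hcon ⟨x, hx, hxq, not_le.1 h⟩
  have notin : ∀ q, (¬ ∃ w, (∀ V ∈ Act q, w ∈ V) ∧ ‖w - q‖ < C₀ + 2) → ∀ z ∈ X,
      ‖q - z‖ ≤ ρ q + η → ∀ x ∈ X, ‖q - x‖ ≤ ρ q + η → 2 - η < ‖x - z‖ → f z ∉ W x := by
    intro q hb z hz hzq x hx hxq hxz hin
    apply hb
    refine ⟨f z, fun V hV => ?_, by linarith [hfq q z hz hzq]⟩
    obtain ⟨x', hx', hxq', rfl⟩ := (mem_Act q V).1 hV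
    by_cases h : ‖x' - z‖ ≤ 2 - η
    · exact hf2 z hz x' hx' h
    · rw [uniq q x' x z hxq' hxq hzq hx' hx (not_le.1 h) hxz]
      exact hin
  refine abstractTopo hS hU hC hD hM Act ε (C₀ + 2) (W '' X) (by linarith) hε1 hε2 ?_ ?_
    (hXc.image W) ?_ ?_ ?_
  · intro q q' hq V hV
    obtain ⟨x, hx, hxq, rfl⟩ := (mem_Act q' V).1 hV
    exact (mem_Act q _).2 ⟨x, hx, hε3 q q' hq x hx hxq, rfl⟩
  · intro q
    obtain ⟨x, hx, hxq⟩ := ρ_lt q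
    exact ⟨W x, (mem_Act q _).2 ⟨x, hx, hxq, rfl⟩⟩
  · intro q V hV
    obtain ⟨x, hx, hxq, rfl⟩ := (mem_Act q V).1 hV
    exact ⟨x, hx, rfl⟩
  · rintro V ⟨x, hx, rfl⟩
    refine ⟨⟨f x, hf2 x hx x hx ?_⟩, hdim x hx⟩
    rw [sub_self, norm_zero]
    linarith
  · intro q hb
    constructor
    · obtain ⟨z, hz, hzq⟩ := ρ_lt q
      obtain ⟨x, hx, hxq, hxz⟩ := far q hb z hz hzq
      have h1 := notin q hb z hz hzq x hx hxq hxz
      have h2 : f z ∈ W z := hf2 z hz z hz (by rw [sub_self, norm_zero]; linarith)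
      refine Finset.one_lt_card.2 ⟨W z, (mem_Act q _).2 ⟨z, hz, hzq, rfl⟩, W x,
        (mem_Act q _).2 ⟨x, hx, hxq, rfl⟩, fun h => h1 (h ▸ h2)⟩
    · intro W₀ hW₀
      obtain ⟨x, hx, hxq, rfl⟩ := (mem_Act q W₀).1 hW₀
      obtain ⟨z, hz, hzq, hzx⟩ := far q hb x hx hxq
      rw [norm_sub_rev] at hzx
      refine ⟨f z, hfq q z hz hzq, notin q hb z hz hzq x hx hxq hzx, fun W' hW' hne => ?_⟩
      obtain ⟨x', hx', hxq', rfl⟩ := (mem_Act q W').1 hW'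
      refine hf2 z hz x' hx' ?_
      by_contra h
      exact hne (uniq q x' x z hxq' hxq hzq hx' hx (not_le.1 h) hzx)

end Pool.Agent.Helper91.Del
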