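import Pool.Agent.Helper31.Del.Goals
import Pool.Agent.Helper65.Delone.A

/-! The topological theorem: orthogonal projections and the data attached to a bad type. -/

namespace Pool.Agent.Helper91.Del

open Module Pool.Agent.Helper65.Delone Pool.Agent.Helper31.Del
open scoped RealInnerProductSpace

variable {E : Type} [NormedAddCommGroup E] [InnerProductSpace ℝ E]

theorem exists_proj [FiniteDimensional ℝ E] (B : AffineSubspace ℝ E) (hB : (B : Set E).Nonempty) :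
    ∃ P : E → E, Continuous P ∧ (∀ q, P q ∈ B) ∧ (∀ q, ∀ c ∈ B, ‖P q - c‖ ≤ ‖q - c‖) ∧
      ∀ q, ∀ c ∈ B, ‖P q - q‖ ≤ ‖q - c‖ := by
  obtain ⟨c₀, hc₀⟩ := hB
  have hmem : ∀ q, B.direction.starProjection (q - c₀) + c₀ ∈ B := fun q =>
    AffineSubspace.vadd_mem_of_mem_direction
      (Submodule.starProjection_apply_mem B.direction (q - c₀)) hc₀
  have hpyth : ∀ q, ∀ c ∈ B, ‖q - c‖ * ‖q - c‖ =
      ‖(B.direction.starProjection (q - c₀) + c₀) - c‖ *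
        ‖(B.direction.starProjection (q - c₀) + c₀) - c‖ +
      ‖q - (B.direction.starProjection (q - c₀) + c₀)‖ *
        ‖q - (B.direction.starProjection (q - c₀) + c₀)‖ := by
    intro q c hc
    have h1 : (B.direction.starProjection (q - c₀) + c₀) - c ∈ B.direction :=
      AffineSubspace.vsub_mem_direction (hmem q) hc
    have h2 : q - (B.direction.starProjection (q - c₀) + c₀) ∈ B.directionᗮ := by
      have := Submodule.sub_starProjection_mem_orthogonal (K := B.direction) (q - c₀)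
      have e : q - c₀ - B.direction.starProjection (q - c₀) =
          q - (B.direction.starProjection (q - c₀) + c₀) := by abel
      rwa [e] at this
    have h3 := (Submodule.mem_orthogonal _ _).1 h2 _ h1
    have h4 := norm_add_sq_eq_norm_sq_add_norm_sq_of_inner_eq_zero _ _ h3
    have e2 : q - c = ((B.direction.starProjection (q - c₀) + c₀) - c) +
        (q - (B.direction.starProjection (q - c₀) + c₀)) := by abel
    rw [e2]
    exact h4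
  refine ⟨fun q => B.direction.starProjection (q - c₀) + c₀, ?_, hmem, ?_, ?_⟩
  · exact (B.direction.starProjection.continuous.comp (continuous_id.sub continuous_const)).add
      continuous_const
  · intro q c hc
    have h := hpyth q c hc
    apply abs_le_of_sq_le_sq' _ (norm_nonneg _) |>.2
    nlinarith [mul_self_nonneg ‖q - (B.direction.starProjection (q - c₀) + c₀)‖]
  · intro q c hc
    have h := hpyth q c hc
    rw [norm_sub_rev]
    apply abs_le_of_sq_le_sq' _ (norm_nonneg _) |>.2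
    nlinarith [mul_self_nonneg ‖(B.direction.starProjection (q - c₀) + c₀) - c‖]

/-- the data attached to a bad type -/
theorem typeData [FiniteDimensional ℝ E] (hC : ThinComb E) (hD : ChainDim E) (hM : CutMap E)
    (C₁ : ℝ) (hC1 : 0 ≤ C₁) (σ : Finset (AffineSubspace ℝ E)) (f : AffineSubspace ℝ E → E)
    (hcard : 2 ≤ σ.card) (hdim : ∀ V ∈ σ, finrank ℝ V.direction + 2 ≤ finrank ℝ E)
    (hf1 : ∀ V ∈ σ, f V ∉ V) (hf2 : ∀ V ∈ σ, ∀ V' ∈ σ, V' ≠ V → f V ∈ V') :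
    ∃ (H : AffineSubspace ℝ E → E → E) (T : Set E), (∀ V ∈ σ, Continuous (H V)) ∧ Thin T ∧
      (∀ q, ∀ w : AffineSubspace ℝ E → ℝ, ∑ V ∈ σ, w V = 1 → ∑ V ∈ σ, w V • H V q ∈ T) ∧
      (∀ V ∈ σ, ∀ q, ∀ V' ∈ σ, V' ≠ V → H V q ∈ V') ∧
      (∀ V ∈ σ, ∀ q c, (∀ V' ∈ σ, c ∈ V') → ‖q - c‖ < C₁ → ∀ V' ∈ σ, H V q ∈ V') ∧
      (∀ V ∈ σ, ∀ q, (∀ V' ∈ σ, ∃ g, ‖g - q‖ ≤ C₁ ∧ ∀ V'' ∈ σ, V'' ≠ V' → g ∈ V'') →
        ‖H V q - q‖ ≤ 4 * C₁ + 1) := by
  obtain ⟨W₁, hW₁⟩ : σ.Nonempty := Finset.card_pos.1 (by omega)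
  let F : AffineSubspace ℝ E → AffineSubspace ℝ E := fun V => sInf {V' | V' ∈ σ ∧ V' ≠ V}
  have hF : ∀ V x, x ∈ F V ↔ ∀ V' ∈ σ, V' ≠ V → x ∈ V' := by
    intro V x
    show x ∈ sInf {V' | V' ∈ σ ∧ V' ≠ V} ↔ _
    rw [AffineSubspace.mem_sInf_iff]
    exact ⟨fun h V' h1 h2 => h V' ⟨h1, h2⟩, fun h V' h1 => h V' h1.1 h1.2⟩
  have hFne : ∀ V ∈ σ, f V ∈ F V := fun V hV => (hF V _).2 (hf2 V hV)
  have hCm : ∀ x, x ∈ (sInf (σ : Set (AffineSubspace ℝ E)) : AffineSubspace ℝ E) ↔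
      ∀ V' ∈ σ, x ∈ V' := by
    intro x
    rw [AffineSubspace.mem_sInf_iff]
    rfl
  have hle : ∀ V, (sInf (σ : Set (AffineSubspace ℝ E)) : AffineSubspace ℝ E) ≤ F V := by
    intro V x hx
    exact (hF V x).2 (fun V' h _ => (hCm x).1 hx V' h)
  have hp : ∀ V ∈ σ, ∃ p : E → E, ContDiff ℝ 1 p ∧ (∀ b, p b ∈ F V) ∧
      (∀ b, ∀ c ∈ (sInf (σ : Set (AffineSubspace ℝ E)) : AffineSubspace ℝ E), ‖b - c‖ ≤ C₁ →
        p b ∈ (sInf (σ : Set (AffineSubspace ℝ E)) : AffineSubspace ℝ E)) ∧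
      ∀ b, ∀ f ∈ F V, ‖p b - b‖ ≤ ‖b - f‖ + C₁ + 1 :=
    fun V hV => hM _ (F V) C₁ (hle V) ⟨f V, hFne V hV⟩ hC1
  choose! p hp1 hp2 hp3 hp4 using hp
  obtain ⟨P, hP1, hP2, hP3, hP4⟩ := exists_proj (F W₁) ⟨f W₁, hFne W₁ hW₁⟩
  refine ⟨fun V q => p V (P q), {y | ∃ b ∈ F W₁, ∃ w : AffineSubspace ℝ E → ℝ,
    ∑ i ∈ σ, w i = 1 ∧ y = ∑ i ∈ σ, w i • p i b}, ?_, ?_, ?_, ?_, ?_, ?_⟩
  · intro V hV
    exact (hp1 V hV).continuous.comp hP1
  · exact hC _ σ p (F W₁) ⟨W₁, hW₁⟩ ⟨f W₁, hFne W₁ hW₁⟩ hp1 (hD σ f hcard hdim hf1 hf2 W₁ hW₁)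
  · intro q w hw
    exact ⟨P q, hP2 q, w, hw, rfl⟩
  · intro V hV q V' hV' hne
    exact (hF V _).1 (hp2 V hV (P q)) V' hV' hne
  · intro V hV q c hc hqc V' hV'
    have h1 : c ∈ F W₁ := hle W₁ ((hCm c).2 hc)
    have h2 := (hP3 q c h1).trans hqc.le
    exact (hCm _).1 (hp3 V hV (P q) c ((hCm c).2 hc) h2) V' hV'
  · intro V hV q hg
    obtain ⟨g₁, hg1, hg1'⟩ := hg W₁ hW₁
    obtain ⟨g₀, hg0, hg0'⟩ := hg V hV
    have h1 : ‖P q - q‖ ≤ C₁ := (hP4 q g₁ ((hF W₁ _).2 hg1')).trans (by rw [norm_sub_rev]; exact hg1)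
    have h2 := hp4 V hV (P q) g₀ ((hF V _).2 hg0')
    have h3 : ‖P q - g₀‖ ≤ ‖P q - q‖ + ‖g₀ - q‖ := by
      have e : P q - g₀ = (P q - q) - (g₀ - q) := by abel
      rw [e]
      exact norm_sub_le _ _
    have h4 : ‖p V (P q) - q‖ ≤ ‖p V (P q) - P q‖ + ‖P q - q‖ := by
      have e : p V (P q) - q = (p V (P q) - P q) + (P q - q) := by abel
      rw [e]
      exact norm_add_le _ _
    show ‖p V (P q) - q‖ ≤ _
    linarith

end Pool.Agent.Helper91.Del
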