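import Pool.Agent.Helper91.Del.TopoA

/-! The topological theorem: the cover. -/

namespace Pool.Agent.Helper91.Del

open Module Pool.Agent.Helper65.Delone Pool.Agent.Helper31.Del
open scoped RealInnerProductSpace

variable {E : Type} [NormedAddCommGroup E] [InnerProductSpace ℝ E]

theorem thin_of_dim (hC : ThinComb E) (V : AffineSubspace ℝ E) (hV : (V : Set E).Nonempty)
    (hd : finrank ℝ V.direction + 2 ≤ finrank ℝ E) : Thin (V : Set E) := by
  have h := hC Unit {()} (fun _ => id) V ⟨(), by simp⟩ hV (fun _ _ => contDiff_id)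
    (by simp only [Finset.card_singleton]; omega)
  have e : {y | ∃ b ∈ V, ∃ w : Unit → ℝ, ∑ i ∈ ({()} : Finset Unit), w i = 1 ∧
      y = ∑ i ∈ ({()} : Finset Unit), w i • (fun _ => id : Unit → E → E) i b} = (V : Set E) := by
    ext y
    constructor
    · rintro ⟨b, hb, w, hw, rfl⟩
      simp only [Finset.sum_singleton] at hw ⊢
      rw [hw]
      simpa using hb
    · intro hy
      exact ⟨y, hy, fun _ => 1, by simp, by simp⟩
  rw [e] at h
  exact h

theorem sum_inv_card {ι : Type*} (σ : Finset ι) (h : 0 < σ.card) :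
    ∑ _i ∈ σ, (σ.card : ℝ)⁻¹ = 1 := by
  rw [Finset.sum_const, nsmul_eq_mul]
  have h2 : (σ.card : ℝ) ≠ 0 := by exact_mod_cast h.ne'
  exact mul_inv_cancel₀ h2

theorem abstractTopo [FiniteDimensional ℝ E] (hS : CoverSurj E) (hU : ThinUnion E)
    (hC : ThinComb E) (hD : ChainDim E) (hM : CutMap E)
    (Act : E → Finset (AffineSubspace ℝ E)) (ε : E → ℝ) (C₁ : ℝ)
    (𝒲 : Set (AffineSubspace ℝ E)) (hC1 : 0 ≤ C₁) (hε : ∀ q, 0 < ε q) (hε' : ∀ q, ε q ≤ 1 / 8)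
    (hmono : ∀ q q', ‖q' - q‖ < 2 * ε q → Act q' ⊆ Act q)
    (hne : ∀ q, (Act q).Nonempty) (h𝒲 : 𝒲.Countable) (hsub : ∀ q, ∀ V ∈ Act q, V ∈ 𝒲)
    (hV : ∀ V ∈ 𝒲, (V : Set E).Nonempty ∧ finrank ℝ V.direction + 2 ≤ finrank ℝ E)
    (hbad : ∀ q, (¬ ∃ w, (∀ V ∈ Act q, w ∈ V) ∧ ‖w - q‖ < C₁) → 2 ≤ (Act q).card ∧
      ∀ W₀ ∈ Act q, ∃ g, ‖g - q‖ ≤ C₁ - 3 / 4 ∧ g ∉ W₀ ∧ ∀ W' ∈ Act q, W' ≠ W₀ → g ∈ W') :
    False := by
  classical
  let Bad : E → Prop := fun q => ¬ ∃ w, (∀ V ∈ Act q, w ∈ V) ∧ ‖w - q‖ < C₁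
  let N : Finset (AffineSubspace ℝ E) → Set E :=
    fun σ => {q' | ∃ q, Bad q ∧ Act q = σ ∧ ‖q' - q‖ < ε q}
  have N_act : ∀ σ q', q' ∈ N σ → Act q' ⊆ σ := by
    rintro σ q' ⟨q, -, rfl, h⟩
    exact hmono q q' (by linarith [hε q])
  have eqAct : ∀ q₁ q₂, Bad q₁ → Bad q₂ → ‖q₂ - q₁‖ < 2 * ε q₁ → Act q₁ = Act q₂ := by
    intro q₁ q₂ h1 h2 h
    refine Finset.Subset.antisymm (fun W₀ hW₀ => ?_) (hmono q₁ q₂ h)
    by_contra hcon
    obtain ⟨g, hg1, -, hg3⟩ := (hbad q₁ h1).2 W₀ hW₀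
    refine h2 ⟨g, fun V hV' => hg3 V (hmono q₁ q₂ h hV') (fun h4 => hcon (h4 ▸ hV')), ?_⟩
    have e : g - q₂ = (g - q₁) - (q₂ - q₁) := by abel
    rw [e]
    have h5 := norm_sub_le (g - q₁) (q₂ - q₁)
    have h6 := hε' q₁
    linarith
  have N_uniq : ∀ σ τ q', q' ∈ N σ → q' ∈ N τ → σ = τ := by
    rintro σ τ q' ⟨q₁, hb1, rfl, h1⟩ ⟨q₂, hb2, rfl, h2⟩
    have e : ‖q₂ - q₁‖ < ε q₁ + ε q₂ := by
      have e1 : q₂ - q₁ = (q' - q₁) - (q' - q₂) := by abel
      rw [e1]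
      exact (norm_sub_le _ _).trans_lt (add_lt_add h1 h2)
    rcases le_total (ε q₁) (ε q₂) with h | h
    · refine (eqAct q₂ q₁ hb2 hb1 ?_).symm
      rw [norm_sub_rev]
      linarith
    · exact eqAct q₁ q₂ hb1 hb2 (by linarith)
  have N_open : ∀ σ, IsOpen (N σ) := by
    intro σ
    have e : N σ = ⋃ q ∈ {q | Bad q ∧ Act q = σ}, Metric.ball q (ε q) := by
      ext q'
      constructor
      · rintro ⟨q, h1, h2, h3⟩
        exact Set.mem_biUnion (x := q) ⟨h1, h2⟩ (by rw [Metric.mem_ball, dist_eq_norm]; exact h3)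
      · intro h0
        obtain ⟨q, ⟨h1, h2⟩, h3⟩ := Set.mem_iUnion₂.1 h0
        rw [Metric.mem_ball, dist_eq_norm] at h3
        exact ⟨q, h1, h2, h3⟩
    rw [e]
    exact isOpen_biUnion (fun q _ => Metric.isOpen_ball)
  have N_pts : ∀ σ q', q' ∈ N σ → ∀ V' ∈ σ, ∃ g, ‖g - q'‖ ≤ C₁ ∧ ∀ V'' ∈ σ, V'' ≠ V' → g ∈ V'' := by
    rintro σ q' ⟨q, hb, rfl, h⟩ V' hV'
    obtain ⟨g, hg1, -, hg3⟩ := (hbad q hb).2 V' hV'
    refine ⟨g, ?_, hg3⟩
    have e : g - q' = (g - q) - (q' - q) := by abel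
    rw [e]
    have h5 := norm_sub_le (g - q) (q' - q)
    have h6 := hε' q
    linarith
  -- openness of the set where a subspace is not active
  have nact_open : ∀ q' W₀, W₀ ∉ Act q' → ∀ q'', ‖q'' - q'‖ < 2 * ε q' → W₀ ∉ Act q'' :=
    fun q' W₀ h q'' h' h'' => h (hmono q' q'' h' h'')
  -- the bad set is closed
  have good_open : IsOpen {q | ¬ Bad q} := by
    rw [Metric.isOpen_iff]
    intro q hq
    obtain ⟨w, hw1, hw2⟩ := not_not.1 hq
    refine ⟨min (2 * ε q) (C₁ - ‖w - q‖), lt_min (by linarith [hε q]) (by linarith), fun q' hq' => ?_⟩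
    rw [Metric.mem_ball, dist_eq_norm] at hq'
    refine not_not.2 ⟨w, fun V hV' => hw1 V (hmono q q' (hq'.trans_le (min_le_left _ _)) hV'), ?_⟩
    have e : w - q' = (w - q) - (q' - q) := by abel
    rw [e]
    have h5 := norm_sub_le (w - q) (q' - q)
    have h6 := hq'.trans_le (min_le_right _ _)
    linarith
  have bad_closed : IsClosed {q | Bad q} := by
    have e : {q | Bad q} = {q | ¬ Bad q}ᶜ := by
      ext q
      show Bad q ↔ ¬ ¬ Bad q
      exact not_not.symm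
    rw [e]
    exact good_open.isClosed_compl
  obtain ⟨V, hVo, hV1, hV2⟩ := normal_exists_closure_subset bad_closed
    (isOpen_iUnion N_open) (fun q hq => Set.mem_iUnion.2 ⟨Act q, q, hq, rfl,
      by rw [sub_self, norm_zero]; exact hε q⟩)
  -- the data of the types
  have hdata : ∀ σ, (N σ).Nonempty →
    ∃ (H : AffineSubspace ℝ E → E → E) (T : Set E), (∀ V ∈ σ, Continuous (H V)) ∧ Thin T ∧
      (∀ q, ∀ w : AffineSubspace ℝ E → ℝ, ∑ V ∈ σ, w V = 1 → ∑ V ∈ σ, w V • H V q ∈ T) ∧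
      (∀ V ∈ σ, ∀ q, ∀ V' ∈ σ, V' ≠ V → H V q ∈ V') ∧
      (∀ V ∈ σ, ∀ q c, (∀ V' ∈ σ, c ∈ V') → ‖q - c‖ < C₁ → ∀ V' ∈ σ, H V q ∈ V') ∧
      (∀ V ∈ σ, ∀ q, (∀ V' ∈ σ, ∃ g, ‖g - q‖ ≤ C₁ ∧ ∀ V'' ∈ σ, V'' ≠ V' → g ∈ V'') →
        ‖H V q - q‖ ≤ 4 * C₁ + 1) := by
    rintro σ ⟨q', q, hb, rfl, -⟩
    obtain ⟨h1, h2⟩ := hbad q hb
    choose! f hf1 hf2 hf3 using h2
    exact typeData hC hD hM C₁ hC1 (Act q) f h1 (fun V h => (hV V (hsub q V h)).2) hf2 hf3
  choose! H T hH1 hH2 hH3 hH4 hH5 hH6 using hdata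
  have hcardpos : ∀ σ, (N σ).Nonempty → 0 < σ.card := by
    rintro σ ⟨q', q, hb, rfl, -⟩
    exact lt_of_lt_of_le (by norm_num) (hbad q hb).1
  -- the constants of the good points
  have hgood : ∀ q, ¬ Bad q → ∃ w, (∀ V ∈ Act q, w ∈ V) ∧ ‖w - q‖ < C₁ := fun q h => not_not.1 h
  choose! w hw1 hw2 using hgood
  let U : E ⊕ ((Finset (AffineSubspace ℝ E) × AffineSubspace ℝ E) ⊕
      Finset (AffineSubspace ℝ E)) → Set E := fun j => match j with
    | Sum.inl q => {q' | ¬ Bad q ∧ ‖q' - q‖ < ε q ∧ q' ∉ closure V}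
    | Sum.inr (Sum.inl z) => {q' | z.2 ∈ z.1 ∧ q' ∈ N z.1 ∧ z.2 ∉ Act q'}
    | Sum.inr (Sum.inr σ) => {q' | q' ∈ N σ ∧ (q' ∈ V ∨ ∃ c, (∀ W' ∈ σ, c ∈ W') ∧ ‖q' - c‖ < C₁)}
  let h : E ⊕ ((Finset (AffineSubspace ℝ E) × AffineSubspace ℝ E) ⊕
      Finset (AffineSubspace ℝ E)) → E → E := fun j => match j with
    | Sum.inl q => fun _ => w q
    | Sum.inr (Sum.inl z) => H z.1 z.2
    | Sum.inr (Sum.inr σ) => fun q' => ∑ W₀ ∈ σ, (σ.card : ℝ)⁻¹ • H σ W₀ q'
  have hwsum : ∀ σ, (N σ).Nonempty → ∑ W₀ ∈ σ, (σ.card : ℝ)⁻¹ = 1 := by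
    exact fun σ hσ => sum_inv_card σ (hcardpos σ hσ)
  let 𝒮 : Set (Set E) := ((fun V : AffineSubspace ℝ E => (V : Set E)) '' 𝒲) ∪
    (T '' {σ | (N σ).Nonempty})
  have h𝒮c : 𝒮.Countable := by
    refine (h𝒲.image _).union (Set.Countable.image ?_ _)
    have h1 := Set.countable_ofPred_finite_subset h𝒲
    have h2 := h1.preimage_of_injOn (f := fun σ : Finset (AffineSubspace ℝ E) =>
      (σ : Set (AffineSubspace ℝ E))) (Finset.coe_injective.injOn)
    refine h2.mono ?_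
    rintro σ ⟨q', q, hb, rfl, -⟩
    exact ⟨Finset.finite_toSet _, fun V hV' => hsub q V hV'⟩
  obtain ⟨p, hp⟩ := hU 𝒮 h𝒮c (by
    rintro S (⟨V, hV', rfl⟩ | ⟨σ, hσ, rfl⟩)
    · exact thin_of_dim hC V (hV V hV').1 (hV V hV').2
    · exact hH2 σ hσ)
  have hZ : ⋃₀ 𝒮 = Set.univ := by
    refine hS _ U h (4 * C₁ + 2) (⋃₀ 𝒮) ?_ ?_ ?_ ?_ ?_
    · -- open
      rintro (q | z | σ)
      · show IsOpen {q' | ¬ Bad q ∧ ‖q' - q‖ < ε q ∧ q' ∉ closure V}
        by_cases hb : Bad q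
        · have e : {q' | ¬ Bad q ∧ ‖q' - q‖ < ε q ∧ q' ∉ closure V} = ∅ :=
            Set.eq_empty_of_forall_notMem (fun q' hq' => hq'.1 hb)
          rw [e]
          exact isOpen_empty
        · have e : {q' | ¬ Bad q ∧ ‖q' - q‖ < ε q ∧ q' ∉ closure V} =
              Metric.ball q (ε q) ∩ (closure V)ᶜ := by
            ext q'
            constructor
            · rintro ⟨-, h2, h3⟩
              exact ⟨by rw [Metric.mem_ball, dist_eq_norm]; exact h2, h3⟩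
            · rintro ⟨h2, h3⟩
              rw [Metric.mem_ball, dist_eq_norm] at h2
              exact ⟨hb, h2, h3⟩
          rw [e]
          exact Metric.isOpen_ball.inter isClosed_closure.isOpen_compl
      · show IsOpen {q' | z.2 ∈ z.1 ∧ q' ∈ N z.1 ∧ z.2 ∉ Act q'}
        rw [Metric.isOpen_iff]
        rintro q' ⟨h1, h2, h3⟩
        obtain ⟨r, hr, hr2⟩ := Metric.isOpen_iff.1 (N_open z.1) q' h2
        refine ⟨min r (2 * ε q'), lt_min hr (by linarith [hε q']), fun q'' hq'' => ?_⟩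
        rw [Metric.mem_ball] at hq''
        refine ⟨h1, hr2 (Metric.mem_ball.2 (hq''.trans_le (min_le_left _ _))), ?_⟩
        rw [dist_eq_norm] at hq''
        exact nact_open q' z.2 h3 q'' (hq''.trans_le (min_le_right _ _))
      · show IsOpen {q' | q' ∈ N σ ∧ (q' ∈ V ∨ ∃ c, (∀ W' ∈ σ, c ∈ W') ∧ ‖q' - c‖ < C₁)}
        have e : {q' | q' ∈ N σ ∧ (q' ∈ V ∨ ∃ c, (∀ W' ∈ σ, c ∈ W') ∧ ‖q' - c‖ < C₁)} =
            N σ ∩ (V ∪ ⋃ c ∈ {c : E | ∀ W' ∈ σ, c ∈ W'}, Metric.ball c C₁) := by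
          ext q'
          constructor
          · rintro ⟨h1, h2 | ⟨c, h3, h4⟩⟩
            · exact ⟨h1, Or.inl h2⟩
            · exact ⟨h1, Or.inr (Set.mem_biUnion (x := c) h3
                (by rw [Metric.mem_ball, dist_eq_norm]; exact h4))⟩
          · rintro ⟨h1, h2 | h2⟩
            · exact ⟨h1, Or.inl h2⟩
            · obtain ⟨c, h3, h4⟩ := Set.mem_iUnion₂.1 h2
              rw [Metric.mem_ball, dist_eq_norm] at h4
              exact ⟨h1, Or.inr ⟨c, h3, h4⟩⟩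
        rw [e]
        exact (N_open σ).inter (hVo.union (isOpen_biUnion (fun c _ => Metric.isOpen_ball)))
    · -- cover
      intro q'
      by_cases h1 : q' ∈ closure V
      · obtain ⟨σ, hσ⟩ := Set.mem_iUnion.1 (hV2 h1)
        by_cases h2 : q' ∈ V
        · exact ⟨Sum.inr (Sum.inr σ), hσ, Or.inl h2⟩
        · have hg : ¬ Bad q' := fun hb => h2 (hV1 hb)
          by_cases h3 : σ ⊆ Act q'
          · refine ⟨Sum.inr (Sum.inr σ), hσ, Or.inr ⟨w q', fun W' hW' => hw1 q' hg W' (h3 hW'), ?_⟩⟩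
            rw [norm_sub_rev]
            exact hw2 q' hg
          · obtain ⟨W₀, h4, h5⟩ := Finset.not_subset.1 h3
            exact ⟨Sum.inr (Sum.inl (σ, W₀)), h4, hσ, h5⟩
      · have hg : ¬ Bad q' := fun hb => h1 (subset_closure (hV1 hb))
        exact ⟨Sum.inl q', hg, by rw [sub_self, norm_zero]; exact hε q', h1⟩
    · -- continuity
      rintro (q | z | σ)
      · exact continuousOn_const
      · rcases Set.eq_empty_or_nonempty (N z.1) with he | hn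
        · intro q' hq'
          have : q' ∈ N z.1 := hq'.2.1
          rw [he] at this
          exact absurd this (Set.notMem_empty _)
        · by_cases hz : z.2 ∈ z.1
          · exact (hH1 z.1 hn z.2 hz).continuousOn
          · intro q' hq'
            exact absurd hq'.1 hz
      · rcases Set.eq_empty_or_nonempty (N σ) with he | hn
        · intro q' hq'
          have : q' ∈ N σ := hq'.1
          rw [he] at this
          exact absurd this (Set.notMem_empty _)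
        · show ContinuousOn (fun q' => ∑ W₀ ∈ σ, (σ.card : ℝ)⁻¹ • H σ W₀ q') _
          exact (continuous_finsetSum _ (fun W₀ h0 =>
            continuous_const.smul (hH1 σ hn W₀ h0))).continuousOn
    · -- displacement
      rintro (q | z | σ) q' hq'
      · show ‖w q - q'‖ ≤ _
        have h1 := hw2 q hq'.1
        have h2 : ‖q' - q‖ < ε q := hq'.2.1
        have h3 := hε' q
        have e : w q - q' = (w q - q) - (q' - q) := by abel
        rw [e]
        have h5 := norm_sub_le (w q - q) (q' - q)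
        linarith
      · show ‖H z.1 z.2 q' - q'‖ ≤ _
        have h1 := hH6 z.1 ⟨q', hq'.2.1⟩ z.2 hq'.1 q' (N_pts z.1 q' hq'.2.1)
        linarith
      · show ‖∑ W₀ ∈ σ, (σ.card : ℝ)⁻¹ • H σ W₀ q' - q'‖ ≤ _
        have hn : (N σ).Nonempty := ⟨q', hq'.1⟩
        have h1 : ∑ W₀ ∈ σ, (σ.card : ℝ)⁻¹ • H σ W₀ q' ∈ Metric.closedBall q' (4 * C₁ + 1) := by
          refine (convex_closedBall q' (4 * C₁ + 1)).sum_mem (fun _ _ => inv_nonneg.2 (Nat.cast_nonneg _))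
            (hwsum σ hn) (fun W₀ h0 => ?_)
          rw [Metric.mem_closedBall, dist_eq_norm]
          exact hH6 σ hn W₀ h0 q' (N_pts σ q' hq'.1)
        rw [Metric.mem_closedBall, dist_eq_norm] at h1
        linarith
    · -- convex hulls
      intro q'
      by_cases hqV : q' ∈ V
      · obtain ⟨σ, hσ⟩ := Set.mem_iUnion.1 (hV2 (subset_closure hqV))
        have hn : (N σ).Nonempty := ⟨q', hσ⟩
        have hconv : Convex ℝ {y | ∃ w : AffineSubspace ℝ E → ℝ, ∑ V ∈ σ, w V = 1 ∧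
            y = ∑ V ∈ σ, w V • H σ V q'} := by
          rintro y₁ ⟨w₁, hw₁, rfl⟩ y₂ ⟨w₂, hw₂, rfl⟩ a b ha hb hab
          refine ⟨fun V => a * w₁ V + b * w₂ V, ?_, ?_⟩
          · rw [Finset.sum_add_distrib, ← Finset.mul_sum, ← Finset.mul_sum, hw₁, hw₂]
            linarith
          · simp only [add_smul, mul_smul, Finset.sum_add_distrib, Finset.smul_sum]
        have hsub1 : {y | ∃ j, q' ∈ U j ∧ y = h j q'} ⊆
            {y | ∃ w : AffineSubspace ℝ E → ℝ, ∑ V ∈ σ, w V = 1 ∧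
            y = ∑ V ∈ σ, w V • H σ V q'} := by
          rintro y ⟨(q | z | τ), hj, rfl⟩
          · exact absurd (subset_closure hqV) hj.2.2
          · have e : z.1 = σ := N_uniq _ _ q' hj.2.1 hσ
            have hz : z.2 ∈ z.1 := hj.1
            refine ⟨fun V => if V = z.2 then 1 else 0, ?_, ?_⟩
            · rw [Finset.sum_ite_eq' σ z.2, if_pos (e ▸ hz)]
            · show H z.1 z.2 q' = _
              simp only [ite_smul, one_smul, zero_smul]
              rw [Finset.sum_ite_eq' σ z.2, if_pos (e ▸ hz), e]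
          · have e : τ = σ := N_uniq _ _ q' hj.1 hσ
            subst e
            exact ⟨fun _ => (τ.card : ℝ)⁻¹, hwsum τ hn, rfl⟩
        refine (convexHull_min hsub1 hconv).trans ?_
        rintro y ⟨w', hw', rfl⟩
        exact ⟨T σ, Or.inr ⟨σ, hn, rfl⟩, hH3 σ hn q' w' hw'⟩
      · obtain ⟨W₁, hW₁⟩ := hne q'
        have hsub1 : {y | ∃ j, q' ∈ U j ∧ y = h j q'} ⊆ (W₁ : Set E) := by
          rintro y ⟨(q | z | τ), hj, rfl⟩
          · show w q ∈ W₁
            have h2 : ‖q' - q‖ < ε q := hj.2.1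
            exact hw1 q hj.1 W₁ (hmono q q' (by linarith [hε q]) hW₁)
          · show H z.1 z.2 q' ∈ W₁
            refine hH4 z.1 ⟨q', hj.2.1⟩ z.2 hj.1 q' W₁ (N_act _ _ hj.2.1 hW₁) ?_
            rintro rfl
            exact hj.2.2 hW₁
          · show ∑ W₀ ∈ τ, (τ.card : ℝ)⁻¹ • H τ W₀ q' ∈ W₁
            have hn : (N τ).Nonempty := ⟨q', hj.1⟩
            refine (AffineSubspace.convex W₁).sum_mem (fun _ _ => inv_nonneg.2 (Nat.cast_nonneg _))
              (hwsum τ hn) (fun W₀ h0 => ?_)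
            rcases hj.2 with h2 | ⟨c, hc1, hc2⟩
            · exact absurd h2 hqV
            · exact hH5 τ hn W₀ h0 q' c hc1 hc2 W₁ (N_act _ _ hj.1 hW₁)
        refine (convexHull_min hsub1 (AffineSubspace.convex W₁)).trans ?_
        intro y hy
        exact ⟨(W₁ : Set E), Or.inl ⟨W₁, hsub q' W₁ hW₁, rfl⟩, hy⟩
  have h1 : p ∈ ⋃₀ 𝒮 := by rw [hZ]; exact Set.mem_univ p
  obtain ⟨S, hS1, hS2⟩ := h1
  exact hp S hS1 hS2

end Pool.Agent.Helper91.Del
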